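import Pool.Agent.Helper21.LQ.Defs

set_option autoImplicit false

namespace Pool.Agent.Helper21.LQ

open Finset

set_option linter.unusedSectionVars false

section
variable {R Γ : Type} [Fintype R] [DecidableEq R] [Fintype Γ] [DecidableEq Γ]

lemma rstep_xnew_eq (v w u : R) (hu : u = v ∨ u = w) (p : Γ → ℝ) (hp : ∀ γ, p γ ≤ 1 / 2)
    (X : R → Γ → ℝ) (g γ : Γ) :
    xnew v w p X g u γ - X u γ = (X u γ / (1 - p γ)) * (p γ - if g = γ then 1 else 0) := by
  have h1 : (1 - p γ) ≠ 0 := by have := hp γ; linarith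
  unfold xnew
  rw [if_pos hu]
  by_cases h : γ = g
  · subst h
    simp only [if_true]
    field_simp
    ring
  · rw [if_neg h, if_neg (fun h' => h h'.symm)]
    field_simp
    ring

lemma rstep_xnew_other (v w x : R) (hv : x ≠ v) (hw : x ≠ w) (p : Γ → ℝ)
    (X : R → Γ → ℝ) (g γ : Γ) : xnew v w p X g x γ = X x γ := by
  unfold xnew
  rw [if_neg (by rintro (h | h); exacts [hv h, hw h])]

/-- loads -/
lemma rstep_load (hRL : ST_RLIN) (v w : R) (p : Γ → ℝ) (De Xm : ℝ) (X : R → Γ → ℝ)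
    (hXm : 1 ≤ Xm) (hDe : 0 < De) (hX : ∀ r γ, 0 ≤ X r γ ∧ X r γ ≤ Xm)
    (hd : IsDist p) (hp : ∀ γ, p γ ≤ 1 / 2) (hp2 : ∀ γ, p γ ≤ 2 * Xm ^ 2 / De)
    (γ : Γ) (αv αw lam : ℝ) (h1 : 0 ≤ αv) (h2 : αv ≤ 1) (h3 : 0 ≤ αw) (h4 : αw ≤ 1)
    (h5 : |lam| * (4 * Xm) ≤ 1) :
      ∑ g, p g * Real.exp (lam * (αv * (xnew v w p X g v γ - X v γ) +
        αw * (xnew v w p X g w γ - X w γ))) ≤
        Real.exp (16 * Xm ^ 4 * lam ^ 2 * (αv ^ 2 + αw ^ 2) / De) := by
  have hpos : 0 < 1 - p γ := by have := hp γ; linarith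
  set B0 : ℝ := (αv * X v γ + αw * X w γ) / (1 - p γ) with hB0
  have hnum0 : 0 ≤ αv * X v γ + αw * X w γ :=
    add_nonneg (mul_nonneg h1 (hX _ _).1) (mul_nonneg h3 (hX _ _).1)
  have hB0n : 0 ≤ B0 := div_nonneg hnum0 hpos.le
  have hnum1 : αv * X v γ + αw * X w γ ≤ Xm * (αv + αw) := by
    nlinarith [mul_le_mul_of_nonneg_left (hX v γ).2 h1, mul_le_mul_of_nonneg_left (hX w γ).2 h3]
  have hB1 : B0 ≤ 2 * Xm * (αv + αw) := by
    rw [hB0, div_le_iff₀ hpos]
    have h6 : 0 ≤ Xm * (αv + αw) := by positivity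
    have h7 : 1 ≤ 2 * (1 - p γ) := by have := hp γ; linarith
    nlinarith
  have hB2 : B0 ≤ 4 * Xm := by nlinarith
  have key := hRL Γ p (fun g => if g = γ then B0 else 0) lam B0 hd
    (fun a _ => by
      split_ifs
      · exact ⟨hB0n, le_refl _⟩
      · exact ⟨le_refl _, hB0n⟩) hB0n
    (le_trans (mul_le_mul_of_nonneg_left hB2 (abs_nonneg _)) h5)
  have hsum : ∑ a, p a * (if a = γ then B0 else 0) = p γ * B0 := by
    simp
  simp only [hsum] at key
  have hL : ∀ g, αv * (xnew v w p X g v γ - X v γ) + αw * (xnew v w p X g w γ - X w γ)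
      = p γ * B0 - (if g = γ then B0 else 0) := by
    intro g
    rw [rstep_xnew_eq v w v (Or.inl rfl) p hp, rstep_xnew_eq v w w (Or.inr rfl) p hp, hB0]
    split_ifs <;> ring
  calc ∑ g, p g * Real.exp (lam * (αv * (xnew v w p X g v γ - X v γ) +
        αw * (xnew v w p X g w γ - X w γ)))
      = ∑ a, p a * Real.exp (lam * (p γ * B0 - (if a = γ then B0 else 0))) := by
        refine Finset.sum_congr rfl (fun g _ => ?_)
        rw [hL]
    _ ≤ Real.exp (lam ^ 2 * B0 * (p γ * B0)) := key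
    _ ≤ _ := by
        apply Real.exp_le_exp.mpr
        have hpg : 0 ≤ p γ := hd.1 γ
        have h8 : B0 ^ 2 ≤ 8 * Xm ^ 2 * (αv ^ 2 + αw ^ 2) := by
          have : B0 ^ 2 ≤ (2 * Xm * (αv + αw)) ^ 2 := by
            apply pow_le_pow_left₀ hB0n hB1
          have h9 : (αv + αw) ^ 2 ≤ 2 * (αv ^ 2 + αw ^ 2) := by nlinarith [sq_nonneg (αv - αw)]
          calc B0 ^ 2 ≤ (2 * Xm * (αv + αw)) ^ 2 := this
            _ = 4 * Xm ^ 2 * (αv + αw) ^ 2 := by ring
            _ ≤ 4 * Xm ^ 2 * (2 * (αv ^ 2 + αw ^ 2)) := by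
                apply mul_le_mul_of_nonneg_left h9; positivity
            _ = _ := by ring
        have h10 : p γ * B0 ^ 2 ≤ (2 * Xm ^ 2 / De) * (8 * Xm ^ 2 * (αv ^ 2 + αw ^ 2)) := by
          apply mul_le_mul (hp2 γ) h8 (by positivity) (by positivity)
        calc lam ^ 2 * B0 * (p γ * B0) = lam ^ 2 * (p γ * B0 ^ 2) := by ring
          _ ≤ lam ^ 2 * ((2 * Xm ^ 2 / De) * (8 * Xm ^ 2 * (αv ^ 2 + αw ^ 2))) := by
              apply mul_le_mul_of_nonneg_left h10; positivity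
          _ = _ := by ring

/-- edges sharing one vertex -/
lemma rstep_edge (hRL : ST_RLIN) (v w u : R) (hu : u = v ∨ u = w) (p : Γ → ℝ) (De Xm : ℝ)
    (X : R → Γ → ℝ)
    (hXm : 1 ≤ Xm) (hDe : 0 < De) (hX : ∀ r γ, 0 ≤ X r γ ∧ X r γ ≤ Xm)
    (hd : IsDist p) (hp : ∀ γ, p γ ≤ 1 / 2) (hp2 : ∀ γ, p γ ≤ 2 * Xm ^ 2 / De)
    (x : R) (K' : Finset Γ) (lam : ℝ) (hxv : x ≠ v) (hxw : x ≠ w)
    (h5 : |lam| * (2 * Xm ^ 2) ≤ 1) :
      ∑ g, p g * Real.exp (lam * (edg u x K' (xnew v w p X g) - edg u x K' X)) ≤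
        Real.exp (8 * Xm ^ 6 * lam ^ 2 * K'.card / De) := by
  set c : Γ → ℝ := fun γ => X u γ * X x γ / (1 - p γ) with hc
  have hc0 : ∀ γ, 0 ≤ c γ := fun γ => by
    have hpos : 0 < 1 - p γ := by have := hp γ; linarith
    exact div_nonneg (mul_nonneg (hX _ _).1 (hX _ _).1) hpos.le
  have hc1 : ∀ γ, c γ ≤ 2 * Xm ^ 2 := fun γ => by
    have hpos : 0 < 1 - p γ := by have := hp γ; linarith
    rw [hc]
    dsimp only
    rw [div_le_iff₀ hpos]
    have h6 : X u γ * X x γ ≤ Xm * Xm :=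
      mul_le_mul (hX _ _).2 (hX _ _).2 (hX _ _).1 (by linarith)
    have h7 : 1 ≤ 2 * (1 - p γ) := by have := hp γ; linarith
    nlinarith
  have key := hRL Γ p (fun g => if g ∈ K' then c g else 0) lam (2 * Xm ^ 2) hd
    (fun a _ => by
      split_ifs
      · exact ⟨hc0 a, hc1 a⟩
      · exact ⟨le_refl _, by positivity⟩) (by positivity) h5
  have hsum : ∑ a, p a * (if a ∈ K' then c a else 0) = ∑ a ∈ K', p a * c a := by
    rw [← Finset.sum_filter_add_sum_filter_not Finset.univ (fun a => a ∈ K')]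
    have e1 : ∑ x ∈ Finset.univ.filter (fun a => a ∉ K'), p x * (if x ∈ K' then c x else 0) = 0 := by
      apply Finset.sum_eq_zero
      intro a ha
      rw [if_neg (Finset.mem_filter.mp ha).2, mul_zero]
    rw [e1, add_zero]
    have e2 : Finset.univ.filter (fun a => a ∈ K') = K' := by ext a; simp
    rw [e2]
    exact Finset.sum_congr rfl (fun a ha => by rw [if_pos ha])
  simp only [hsum] at key
  have hL : ∀ g, edg u x K' (xnew v w p X g) - edg u x K' X
      = ∑ a ∈ K', p a * c a - (if g ∈ K' then c g else 0) := by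
    intro g
    unfold edg
    rw [← Finset.sum_sub_distrib]
    have e1 : (if g ∈ K' then c g else 0) = ∑ a ∈ K', (if g = a then c a else 0) := by
      rw [Finset.sum_ite_eq K' g c]
    rw [e1, ← Finset.sum_sub_distrib]
    refine Finset.sum_congr rfl (fun a _ => ?_)
    rw [rstep_xnew_other v w x hxv hxw, ← sub_mul, rstep_xnew_eq v w u hu p hp]
    rw [hc]
    dsimp only
    split_ifs <;> ring
  calc ∑ g, p g * Real.exp (lam * (edg u x K' (xnew v w p X g) - edg u x K' X))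
      = ∑ g, p g * Real.exp (lam * (∑ a ∈ K', p a * c a - (if g ∈ K' then c g else 0))) := by
        refine Finset.sum_congr rfl (fun g _ => ?_)
        rw [hL]
    _ ≤ Real.exp (lam ^ 2 * (2 * Xm ^ 2) * ∑ a ∈ K', p a * c a) := key
    _ ≤ _ := by
        apply Real.exp_le_exp.mpr
        have h10 : ∑ a ∈ K', p a * c a ≤ K'.card * ((2 * Xm ^ 2 / De) * (2 * Xm ^ 2)) := by
          have := Finset.sum_le_card_nsmul K' (fun a => p a * c a)
            ((2 * Xm ^ 2 / De) * (2 * Xm ^ 2)) (fun a _ =>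
              mul_le_mul (hp2 a) (hc1 a) (hc0 a) (by positivity))
          rwa [nsmul_eq_mul] at this
        calc lam ^ 2 * (2 * Xm ^ 2) * ∑ a ∈ K', p a * c a
            ≤ lam ^ 2 * (2 * Xm ^ 2) * (K'.card * ((2 * Xm ^ 2 / De) * (2 * Xm ^ 2))) := by
              apply mul_le_mul_of_nonneg_left h10; positivity
          _ = _ := by ring

/-- update of the weights at `u ∈ {v, w}`, the other vertex being `u'` -/
lemma rstep_upd (v w u u' : R) (hu : u = v ∨ u = w) (K : Finset Γ) (De S δ : ℝ) (p : Γ → ℝ)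
    (X : R → Γ → ℝ) (hDe : 0 < De) (hδ : 0 < δ) (hδ2 : δ ≤ 1 / 8)
    (hS : (1 - 2 * δ) * De ≤ S) (hX : ∀ r γ, 0 ≤ X r γ)
    (hp0 : ∀ γ, 0 ≤ p γ) (hp : ∀ γ, p γ ≤ 1 / 2)
    (hpK : ∀ γ ∈ K, p γ = X u γ * X u' γ / S) (hpK' : ∀ γ ∉ K, p γ = 0)
    (g γ : Γ) (b : ℝ) (h : X u γ = 0 ∨ (1 ≤ X u γ ∧ b ≤ 1 / X u γ)) :
      (xnew v w p X g u γ = 0 ∨ (1 ≤ xnew v w p X g u γ ∧
        b - (1 + 4 * δ) * (if γ ∈ K then X u' γ / De else 0) ≤ 1 / xnew v w p X g u γ)) := by
  unfold xnew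
  rw [if_pos hu]
  by_cases hg : γ = g
  · left; rw [if_pos hg]
  rw [if_neg hg]
  rcases h with h | ⟨h1, h2⟩
  · left; rw [h, zero_div]
  right
  have hpos : 0 < 1 - p γ := by have := hp γ; linarith
  have hx : 0 < X u γ := by linarith
  constructor
  · rw [le_div_iff₀ hpos]
    have := hp0 γ
    linarith
  · have hSpos : 0 < S := lt_of_lt_of_le (by
      have : 0 < 1 - 2 * δ := by linarith
      positivity) hS
    rw [one_div_div, sub_div]
    by_cases hK : γ ∈ K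
    · rw [if_pos hK, hpK γ hK]
      have e1 : X u γ * X u' γ / S / X u γ = X u' γ / S := by field_simp
      rw [e1]
      have e2 : X u' γ / S ≤ (1 + 4 * δ) * (X u' γ / De) := by
        rw [div_le_iff₀ hSpos]
        have h3 : 1 ≤ (1 + 4 * δ) * (1 - 2 * δ) := by nlinarith
        have h4 : De ≤ (1 + 4 * δ) * S := by
          have : (1 + 4 * δ) * ((1 - 2 * δ) * De) ≤ (1 + 4 * δ) * S :=
            mul_le_mul_of_nonneg_left hS (by linarith)
          nlinarith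
        have h5 : 0 ≤ X u' γ / De := div_nonneg (hX _ _) hDe.le
        have h6 : X u' γ = (X u' γ / De) * De := by field_simp
        calc X u' γ = (X u' γ / De) * De := h6
          _ ≤ (X u' γ / De) * ((1 + 4 * δ) * S) := mul_le_mul_of_nonneg_left h4 h5
          _ = _ := by ring
      linarith
    · rw [if_neg hK, hpK' γ hK]
      simp only [mul_zero, zero_div, sub_zero]
      exact h2

end

theorem st_RSTEP (hRL : ST_RLIN) : ST_RSTEP := by
  intro R Γ _ _ _ _ v w K De Xm δ X hvw hXm hδ hδ2 hDe hK hX hS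
  have hDe0 : 0 < De := by nlinarith
  have hX0 : ∀ r γ, 0 ≤ X r γ ∧ X r γ ≤ Xm := by
    intro r γ
    rcases hX r γ with h | ⟨h1, h2⟩
    · rw [h]; exact ⟨le_refl _, by linarith⟩
    · exact ⟨by linarith, h2⟩
  set S : ℝ := edg v w K X with hSdef
  have hS34 : 3 / 4 * De ≤ S := by
    refine le_trans ?_ hS
    nlinarith
  have hSpos : 0 < S := by nlinarith
  set p : Γ → ℝ := fun γ => if γ ∈ K then X v γ * X w γ / S else 0 with hp
  have hpnn : ∀ γ, 0 ≤ p γ := by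
    intro γ
    rw [hp]
    dsimp only
    split_ifs
    · exact div_nonneg (mul_nonneg (hX0 _ _).1 (hX0 _ _).1) hSpos.le
    · exact le_refl _
  have hbound : ∀ γ, p γ ≤ Xm ^ 2 / S := by
    intro γ
    rw [hp]
    dsimp only
    split_ifs
    · apply div_le_div_of_nonneg_right _ hSpos.le
      have := mul_le_mul (hX0 v γ).2 (hX0 w γ).2 (hX0 w γ).1 (by linarith)
      nlinarith
    · positivity
  have hp12 : ∀ γ, p γ ≤ 1 / 2 := by
    intro γ
    refine le_trans (hbound γ) ?_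
    rw [div_le_iff₀ hSpos]
    nlinarith
  have hp2 : ∀ γ, p γ ≤ 2 * Xm ^ 2 / De := by
    intro γ
    refine le_trans (hbound γ) ?_
    rw [div_le_div_iff₀ hSpos hDe0]
    have : 0 ≤ Xm ^ 2 := by positivity
    nlinarith
  have hsum : ∑ γ, p γ = 1 := by
    rw [hp]
    rw [Finset.sum_ite_mem, Finset.univ_inter, ← Finset.sum_div]
    exact div_self hSpos.ne'
  have hd : IsDist p := ⟨hpnn, hsum⟩
  have hpK' : ∀ γ ∉ K, p γ = 0 := by
    intro γ h
    rw [hp]
    dsimp only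
    rw [if_neg h]
  have hpKv : ∀ γ ∈ K, p γ = X v γ * X w γ / S := by
    intro γ h
    rw [hp]
    dsimp only
    rw [if_pos h]
  have hpKw : ∀ γ ∈ K, p γ = X w γ * X v γ / S := by
    intro γ h
    rw [hpKv γ h, mul_comm (X v γ)]
  refine ⟨p, hd, hp12, hpK', ?_, ?_, ?_, ?_, ?_, ?_⟩
  · intro γ h
    by_cases hK' : γ ∈ K
    · rw [hpKv γ hK'] at h
      constructor
      · intro h'; apply h; rw [h']; simp
      · intro h'; apply h; rw [h']; simp
    · exact absurd (hpK' γ hK') h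
  · intro g γ b h
    exact rstep_upd v w v w (Or.inl rfl) K De S δ p X hDe0 hδ hδ2 hS (fun r γ => (hX0 r γ).1)
      hpnn hp12 hpKv hpK' g γ b h
  · intro g γ b h
    exact rstep_upd v w w v (Or.inr rfl) K De S δ p X hDe0 hδ hδ2 hS (fun r γ => (hX0 r γ).1)
      hpnn hp12 hpKw hpK' g γ b h
  · intro γ αv αw lam h1 h2 h3 h4 h5
    exact rstep_load hRL v w p De Xm X hXm hDe0 hX0 hd hp12 hp2 γ αv αw lam h1 h2 h3 h4 h5
  · intro x K' lam hxv hxw h5
    exact rstep_edge hRL v w v (Or.inl rfl) p De Xm X hXm hDe0 hX0 hd hp12 hp2 x K' lam hxv hxw h5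
  · intro x K' lam hxv hxw h5
    exact rstep_edge hRL v w w (Or.inr rfl) p De Xm X hXm hDe0 hX0 hd hp12 hp2 x K' lam hxv hxw h5

end Pool.Agent.Helper21.LQ
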